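import Pool.Agent.Y709.Ten.Stm
import Pool.Agent.Y709.ClPt

/-!
# Project R3 of helper709 (MP_2a05c8_ag), job Ten-A3: the logarithmic derivative of the Euler
product over the closed points of the line (helper864)
-/

set_option autoImplicit false

open Polynomial

namespace Pool.Agent.Z864.Ten

open Pool.Agent.W313.Hyp Pool.Agent.W343.BSD Pool.Agent.Y709 Pool.Agent.Y709.Gen
open Pool.Agent.Y709.Ten

/-- the logarithmic derivative of `1 - c X` -/
theorem lg_lin {R : Type} [CommRing R] (c : R) :
    Lg (1 - PowerSeries.C c * PowerSeries.X : PowerSeries R)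
      (PowerSeries.mk fun n => if n = 0 then 0 else c ^ n) := by
  have h1 : (1 - PowerSeries.C c * PowerSeries.X : PowerSeries R) *
      (PowerSeries.mk fun n => if n = 0 then 0 else c ^ n) = PowerSeries.C c * PowerSeries.X := by
    ext n
    rw [sub_mul, one_mul, map_sub, mul_assoc, PowerSeries.coeff_C_mul, PowerSeries.coeff_C_mul,
      PowerSeries.coeff_mk]
    rcases n with _ | n
    · rw [PowerSeries.coeff_zero_X_mul, PowerSeries.coeff_zero_X]
      simp
    · rw [PowerSeries.coeff_succ_X_mul, PowerSeries.coeff_mk, PowerSeries.coeff_X]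
      rcases n with _ | n
      · simp
      · rw [if_neg (Nat.succ_ne_zero _), if_neg (Nat.succ_ne_zero _),
          if_neg (by omega : ¬ n + 1 + 1 = 1)]
        ring
  unfold Lg
  rw [h1, map_sub, Derivation.map_one_eq_zero, Derivation.leibniz, PowerSeries.derivative_C,
    PowerSeries.derivative_X]
  simp only [smul_eq_mul, mul_one, mul_zero, add_zero, zero_sub]
  ring

/-- norms of values at the roots of an irreducible polynomial -/
theorem norm_root {k F : Type} [Field k] [Finite k] [Field F] [Finite F] [Algebra k F]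
    {E : Type} [Field E] [Fintype E] [Algebra F E] [Algebra k E] [IsScalarTower k F E]
    (P : MI F) (f : F[X]) {θ : E} (hθ : aeval θ P.1 = 0) :
    Algebra.norm k (aeval θ f) =
      Algebra.norm k (AdjoinRoot.mk P.1 f) ^ (Module.finrank F E / P.1.natDegree) := by
  haveI hirr : Fact (Irreducible P.1) := ⟨P.2.2⟩
  haveI hfd : FiniteDimensional F (AdjoinRoot P.1) := P.2.1.finite_adjoinRoot
  haveI hkF : FiniteDimensional k F := inferInstance
  haveI hfd' : FiniteDimensional k (AdjoinRoot P.1) := FiniteDimensional.trans k F _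
  let φ : AdjoinRoot P.1 →ₐ[F] E := AdjoinRoot.liftAlgHom P.1 (Algebra.ofId F E) θ hθ
  letI : Algebra (AdjoinRoot P.1) E := φ.toRingHom.toAlgebra
  haveI t1 : IsScalarTower F (AdjoinRoot P.1) E := IsScalarTower.of_algebraMap_eq fun x => by
    exact (φ.commutes x).symm
  haveI t2 : IsScalarTower k (AdjoinRoot P.1) E := IsScalarTower.of_algebraMap_eq fun x => by
    rw [IsScalarTower.algebraMap_apply k F E, IsScalarTower.algebraMap_apply k F (AdjoinRoot P.1)]
    exact (φ.commutes _).symm
  haveI hE : FiniteDimensional (AdjoinRoot P.1) E := inferInstance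
  have h1 : aeval θ f = algebraMap (AdjoinRoot P.1) E (AdjoinRoot.mk P.1 f) := by
    change _ = φ (AdjoinRoot.mk P.1 f)
    rw [AdjoinRoot.liftAlgHom_mk]
    rfl
  rw [h1, ← Algebra.norm_norm (S := AdjoinRoot P.1), Algebra.norm_algebraMap, map_pow]
  congr 1
  have h2 := Module.finrank_mul_finrank F (AdjoinRoot P.1) E
  rw [(AdjoinRoot.powerBasis P.2.1.ne_zero).finrank, AdjoinRoot.powerBasis_dim] at h2
  rw [← h2]
  exact (Nat.mul_div_cancel_left _ (MI.deg_pos P)).symm

/-- job Ten-A3 -/
theorem sumsLine : SumsLine := by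
  classical
  intro R _ k F _ _ _ _ _ χ f
  have hfin := fun n => finite_deg_le (F := F) n
  obtain ⟨c, hc⟩ : ∃ c : MI F → R, c = fun Q => χ (Algebra.norm k (AdjoinRoot.mk Q.1 f)) :=
    ⟨_, rfl⟩
  obtain ⟨S1, hS1⟩ : ∃ S1 : R → PowerSeries R, S1 = fun c =>
    PowerSeries.mk fun n => if n = 0 then 0 else c ^ n := ⟨_, rfl⟩
  have hlg : ∀ Q : MI F, Lg (1 - PowerSeries.C (c Q) * PowerSeries.X ^ Q.1.natDegree)
      ((Q.1.natDegree : PowerSeries R) * PowerSeries.expand Q.1.natDegree (MI.deg_pos Q).ne'
        (S1 (c Q))) := by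
    intro Q
    have h := (lg_lin (c Q)).expand (MI.deg_pos Q).ne'
    rw [map_sub, map_one, map_mul, PowerSeries.expand_X, PowerSeries.expand_C] at h
    rw [hS1]
    exact h
  have hmod : ∀ Q : MI F, (PowerSeries.X : PowerSeries R) ^ Q.1.natDegree ∣
      (1 - PowerSeries.C (c Q) * PowerSeries.X ^ Q.1.natDegree) - 1 := by
    intro Q
    refine ⟨-PowerSeries.C (c Q), ?_⟩
    ring
  have hL := Lg.euler hfin hmod hlg
  have hfib : fibG R χ f = eulerProd (fun Q : MI F => Q.1.natDegree)
      (fun Q => 1 - PowerSeries.C (c Q) * PowerSeries.X ^ Q.1.natDegree) := by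
    rw [hc]; rfl
  rw [hfib]
  refine ⟨_, hL, ?_, ?_⟩
  · rw [PowerSeries.coeff_mk]
    refine Finset.sum_eq_zero fun Q hQ => ?_
    rw [Set.Finite.mem_toFinset] at hQ
    have h4 := MI.deg_pos Q
    have h5 : Q.1.natDegree ≤ 0 := hQ
    omega
  · intro a ha E _ _ _ _ _ hE
    rw [PowerSeries.coeff_mk]
    rw [sum_closed (k := F) (E := E) hE (fun x => χ (Algebra.norm k (aeval x f)))
      (fun P => c P ^ (a / P.1.natDegree)) (by
        intro P θ hθ
        rw [norm_root (k := k) P f hθ, hE, hc, map_pow])]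
    refine Finset.sum_congr rfl fun P _ => ?_
    rw [← map_natCast (PowerSeries.C (R := R)), PowerSeries.coeff_C_mul]
    split_ifs with hd
    · obtain ⟨l, hl⟩ := hd
      have hdpos := MI.deg_pos P
      have hl0 : l ≠ 0 := by
        rintro rfl
        rw [mul_zero] at hl
        exact ha hl
      have h10 : a / P.1.natDegree = l := by
        rw [hl]
        exact Nat.mul_div_cancel_left l hdpos
      rw [h10, hl, PowerSeries.coeff_expand_mul, hS1, PowerSeries.coeff_mk, if_neg hl0,
        nsmul_eq_mul]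
    · rw [PowerSeries.coeff_expand_of_not_dvd _ _ _ hd, mul_zero]

end Pool.Agent.Z864.Ten
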